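import Pool.Agent.helper31.MC.U0
import Pool.Agent.helper99.MC.W

/-!
MC project (MP_ddb86a_co), module U: two of the subspaces `WW a`, `WW a'` meet in few points.
-/

set_option autoImplicit false
open Finset Classical

namespace MCut

section Wa
variable {K : Type*} [Field K] [Fintype K] [CharP K 2]

/-- Uniqueness: the intersection of two different subspaces of the family is small. -/
theorem WW_inter (l T : ℕ) (hT : T < l) (hK : Fintype.card K = 2 ^ l)
    (tr : K →+ ZMod 2) (a a' : Fin T → K) (haa : a ≠ a') :
    Nat.card (WW l T tr a ⊓ WW l T tr a' : AddSubgroup (QuadraticAlgebra K 1 1))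
      < 2 ^ (2 * T + 3) := by
  refine U_core l T hT hK (phi0 l) a a' haa
    ((WW l T tr a ⊓ WW l T tr a' : AddSubgroup (QuadraticAlgebra K 1 1)) :
      Set (QuadraticAlgebra K 1 1)) ?_
  intro x hx
  rw [SetLike.mem_coe, AddSubgroup.mem_inf] at hx
  exact ⟨hx.1.2, hx.2.2⟩

end Wa

end MCut
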