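import Pool.Agent.helper76.MC.Defs

/-! # Project MC, module A2: maps of finite order -/

namespace Pool.Agent.helper76.MC

open Finset Pool.Agent.helper34.DH Pool.Agent.helper76.FV Pool.Agent.helper76.LP
open Pool.Agent.helper76.UR
open Matrix (SpecialLinearGroup)

theorem A2_ez_coe (r : ℚ) :
    ez ((r : ℚ) : QZ) = Complex.exp (2 * Real.pi * Complex.I * (r : ℂ)) := rfl

theorem A2_ez_zero : ez 0 = 1 := by
  have h := A2_ez_coe 0
  simpa using h

theorem A2_ez_add (x y : QZ) : ez (x + y) = ez x * ez y := by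
  induction x using QuotientAddGroup.induction_on with
  | H a =>
    induction y using QuotientAddGroup.induction_on with
    | H b =>
      have h : ez (((a + b : ℚ)) : QZ) = ez ((a : ℚ) : QZ) * ez ((b : ℚ) : QZ) := by
        rw [A2_ez_coe, A2_ez_coe, A2_ez_coe, ← Complex.exp_add]
        congr 1
        push_cast
        ring
      exact h

theorem A2_ez_sum (s : Multiset QZ) : ez s.sum = (s.map ez).prod := by
  induction s using Multiset.induction_on with
  | empty => simpa using A2_ez_zero
  | cons a s ih => simp [A2_ez_add, ih]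

theorem A2_exists_ez (z : ℂ) (k : ℕ) (hk : 0 < k) (h : z ^ k = 1) :
    ∃ x : QZ, ez x = z ∧ k • x = 0 := by
  have hk' : k ≠ 0 := hk.ne'
  haveI : NeZero k := ⟨hk'⟩
  have hz : z ≠ 0 := by
    rintro rfl
    rw [zero_pow hk'] at h
    exact zero_ne_one h
  have h1 : (Units.mk0 z hz) ∈ rootsOfUnity k ℂ := by
    rw [mem_rootsOfUnity]
    ext
    simpa using h
  obtain ⟨i, hi, hi'⟩ := (Complex.mem_rootsOfUnity k (Units.mk0 z hz)).1 h1
  refine ⟨(((i : ℚ) / (k : ℚ) : ℚ) : QZ), ?_, ?_⟩
  · rw [A2_ez_coe]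
    rw [Units.val_mk0] at hi'
    rw [← hi']
    congr 1
    push_cast
    ring
  · rw [← QuotientAddGroup.mk_nsmul, QuotientAddGroup.eq_zero_iff, AddSubgroup.mem_zmultiples_iff]
    refine ⟨i, ?_⟩
    have : (k : ℚ) ≠ 0 := by exact_mod_cast hk'
    rw [nsmul_eq_mul, zsmul_eq_mul, mul_one]
    field_simp
    norm_cast

theorem exps_of_pow {V : Type} [AddCommGroup V] [Module ℂ V] [FiniteDimensional ℂ V]
    (A : V →ₗ[ℂ] V) (k : ℕ) (hk : 0 < k) (h : A ^ k = 1) :
    ∃ s : Multiset QZ, Exps A s ∧ ∀ x ∈ s, k • x = 0 := by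
  classical
  have hss : Module.End.IsSemisimple A := by
    refine Module.End.isSemisimple_of_squarefree_aeval_eq_zero
      (p := (Polynomial.X ^ k - 1 : Polynomial ℂ)) ?_ ?_
    · apply Polynomial.Separable.squarefree
      have h1 := Polynomial.separable_X_pow_sub_C (F := ℂ) (n := k) 1
        (by exact_mod_cast hk.ne') one_ne_zero
      simpa using h1
    · simp [h]
  have hfs := hss.isFinitelySemisimple
  have htop : ⨆ μ : ℂ, Module.End.eigenspace A μ = ⊤ := by
    have h1 := Module.End.iSup_maxGenEigenspace_eq_top A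
    rw [← h1]
    congr 1
    ext1 μ
    exact (hfs.maxGenEigenspace_eq_eigenspace μ).symm
  have hind := Module.End.eigenspaces_iSupIndep A
  have hint : DirectSum.IsInternal (fun μ : ℂ => Module.End.eigenspace A μ) :=
    DirectSum.isInternal_submodule_of_iSupIndep_of_iSup_eq_top hind htop
  let b0 := hint.collectedBasis (fun μ : ℂ => Module.finBasis ℂ (Module.End.eigenspace A μ))
  haveI : Finite (Σ μ : ℂ, Fin (Module.finrank ℂ (Module.End.eigenspace A μ))) :=
    Module.Finite.finite_basis b0
  haveI : Fintype (Σ μ : ℂ, Fin (Module.finrank ℂ (Module.End.eigenspace A μ))) :=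
    Fintype.ofFinite _
  let e := Fintype.equivFin (Σ μ : ℂ, Fin (Module.finrank ℂ (Module.End.eigenspace A μ)))
  let b := b0.reindex e
  have hb : ∀ i, A (b i) = ((e.symm i).1) • b i := by
    intro i
    have h1 : b i = b0 (e.symm i) := by simp [b]
    rw [h1]
    have h2 : b0 (e.symm i) ∈ Module.End.eigenspace A (e.symm i).1 :=
      hint.collectedBasis_mem _ _
    exact Module.End.mem_eigenspace_iff.1 h2
  have hpow : ∀ i, ((e.symm i).1) ^ k = 1 := by
    intro i
    have h1 : ∀ j : ℕ, (A ^ j) (b i) = ((e.symm i).1) ^ j • b i := by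
      intro j
      induction j with
      | zero => simp
      | succ j ih =>
        rw [pow_succ', Module.End.mul_apply, ih, map_smul, hb, smul_smul, pow_succ]
    have h2 := h1 k
    rw [h, Module.End.one_apply] at h2
    have h3 : ((e.symm i).1 ^ k - 1) • b i = 0 := by
      rw [sub_smul, ← h2, one_smul, sub_self]
    rcases smul_eq_zero.1 h3 with h4 | h4
    · exact sub_eq_zero.1 h4
    · exact absurd h4 (b.ne_zero i)
  choose x hx hx' using fun i => A2_exists_ez ((e.symm i).1) k hk (hpow i)
  refine ⟨(Finset.univ : Finset (Fin _)).val.map x, ⟨_, b, x, ?_, rfl⟩, ?_⟩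
  · intro i
    rw [hx, hb]
  · intro y hy
    obtain ⟨i, -, rfl⟩ := Multiset.mem_map.1 hy
    exact hx' i

theorem det_exps {V : Type} [AddCommGroup V] [Module ℂ V] (A : V →ₗ[ℂ] V) (s : Multiset QZ)
    (h : Exps A s) : LinearMap.det A = ez s.sum := by
  classical
  obtain ⟨n, b, x, hb, rfl⟩ := h
  rw [← LinearMap.det_toMatrix b A]
  have h1 : LinearMap.toMatrix b b A = Matrix.diagonal (fun i => ez (x i)) := by
    ext i j
    rw [LinearMap.toMatrix_apply, hb, map_smul, Finsupp.smul_apply, Module.Basis.repr_self,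
      Matrix.diagonal_apply]
    by_cases hij : i = j
    · subst hij
      simp
    · rw [if_neg hij, Finsupp.single_eq_of_ne hij, smul_zero]
  rw [h1, Matrix.det_diagonal, A2_ez_sum, Multiset.map_map]
  rfl

theorem card_exps {V : Type} [AddCommGroup V] [Module ℂ V] (A : V →ₗ[ℂ] V) (s : Multiset QZ)
    (h : Exps A s) : FiniteDimensional ℂ V ∧ Multiset.card s = Module.finrank ℂ V := by
  obtain ⟨n, b, x, hb, rfl⟩ := h
  refine ⟨Module.Basis.finiteDimensional_of_finite b, ?_⟩
  rw [Module.finrank_eq_card_basis b]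
  simp

end Pool.Agent.helper76.MC
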