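import Pool.Agent.helper77.MC.Spec

/-!
Row JC of project MC (MP_7e34bc_co).
-/

set_option autoImplicit false

namespace Pool.Agent.helper77.MC

open Finset Numbering

theorem JC_val {β : Type} [Fintype β] [DecidableEq β] (t : Finset β) (F : (prefixed t : Finset (Numbering β))) (x : t) :
    (((prefixedEquiv t F).1 x : Fin _) : ℕ) = ((F.1 x.1 : Fin _) : ℕ) := rfl

theorem JC_card {β : Type} [Fintype β] [DecidableEq β] (s t : Finset β) (h : s ⊆ t) :
    #(s.subtype (fun x => x ∈ t)) = #s := by
  rw [Finset.card_subtype]
  congr 1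
  exact Finset.filter_true_of_mem fun x hx => h hx

theorem JC_eq {β : Type} [Fintype β] [DecidableEq β] (s t : Finset β) (h : s ⊆ t) :
    #((prefixed s : Finset (Numbering β)) ∩ prefixed t) =
      #((prefixed (s.subtype (fun x => x ∈ t)) : Finset (Numbering t)) ×ˢ (Finset.univ : Finset (Numbering (↑(tᶜ) : Type)))) := by
  have hc := JC_card s t h
  have hst := Finset.card_le_card h
  refine Finset.card_bij (fun f hf => prefixedEquiv t ⟨f, (Finset.mem_inter.mp hf).2⟩) ?_ ?_ ?_
  · intro f hf
    rw [Finset.mem_product]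
    refine ⟨?_, Finset.mem_univ _⟩
    rw [mem_prefixed]
    intro x
    rw [Finset.mem_subtype, hc, JC_val]
    exact mem_prefixed.mp (Finset.mem_inter.mp hf).1 x.1
  · intro f hf g hg hfg
    have := (prefixedEquiv t).injective hfg
    exact congrArg Subtype.val this
  · intro p hp
    rw [Finset.mem_product, mem_prefixed] at hp
    obtain ⟨F, hF⟩ : ∃ F, prefixedEquiv t F = p := ⟨(prefixedEquiv t).symm p, Equiv.apply_symm_apply _ _⟩
    have hFt := mem_prefixed.mp F.2
    refine ⟨F.1, ?_, ?_⟩
    · rw [Finset.mem_inter]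
      refine ⟨?_, F.2⟩
      rw [mem_prefixed]
      intro x
      by_cases hx : x ∈ t
      · have h1 := hp.1 ⟨x, hx⟩
        rw [Finset.mem_subtype, hc, ← hF, JC_val] at h1
        exact h1
      · have h1 : ¬ (((F.1 x : Fin _) : ℕ) < #t) := fun h2 => hx ((hFt x).mpr h2)
        constructor
        · exact fun h2 => absurd (h h2) hx
        · intro h2
          exact absurd (lt_of_lt_of_le h2 hst) h1
    · exact hF

theorem JC : JC_stmt := by
  intro β _ _ s t h
  have hst := Finset.card_le_card h
  rw [JC_eq s t h, Finset.card_product, card_prefixed, card_prefixed, JC_card s t h, Fintype.card_coe, Finset.card_univ,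
    Fintype.card_numbering, Fintype.card_coe, Finset.card_compl, ← Nat.choose_mul_factorial_mul_factorial hst]
  ring

end Pool.Agent.helper77.MC
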