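import Pool.Agent.helper79.MC.Base

/-!
MC project (MP_ddb86a_co), module U: the counting argument for the intersection of two of the
subspaces (uniqueness by a linearized polynomial), written without the subgroups themselves.
-/

set_option autoImplicit false
open Finset Classical

namespace MCut

section U
variable {K : Type*} [Field K] [Fintype K] [CharP K 2]

/-- The operator `LL` of the module G, written out. -/
def U_L (l T : ℕ) (a : Fin T → K) (e : K) : K :=
  ∑ j : Fin T, (a j * e ^ 2 ^ (j.1 + 1) + (a j * e) ^ 2 ^ (l - (j.1 + 1)))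

omit [Fintype K] in
theorem U_L_add_left (l T : ℕ) (a b : Fin T → K) (e : K) :
    U_L l T (a + b) e = U_L l T a e + U_L l T b e := by
  unfold U_L
  rw [← Finset.sum_add_distrib]
  refine Finset.sum_congr rfl (fun j _ => ?_)
  rw [Pi.add_apply, add_mul, add_mul, add_pow_char_pow]
  ring

/-- The polynomial of the uniqueness argument. -/
noncomputable def U_pol (T : ℕ) (b : Fin T → K) : Polynomial K :=
  ∑ j : Fin T, (Polynomial.monomial (2 ^ (T + (j.1 + 1))) ((b j) ^ 2 ^ T)
    + Polynomial.monomial (2 ^ (T - (j.1 + 1))) ((b j) ^ 2 ^ (T - (j.1 + 1))))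

omit [Fintype K] [CharP K 2] in
theorem U_pol_coeff (T : ℕ) (b : Fin T → K) (j : Fin T) :
    (U_pol T b).coeff (2 ^ (T + (j.1 + 1))) = (b j) ^ 2 ^ T := by
  unfold U_pol
  rw [Polynomial.finsetSum_coeff, Finset.sum_eq_single j]
  · rw [Polynomial.coeff_add, Polynomial.coeff_monomial, Polynomial.coeff_monomial, if_pos rfl,
      if_neg, add_zero]
    intro h
    have := Nat.pow_right_injective (le_refl 2) h
    omega
  · intro i _ hij
    rw [Polynomial.coeff_add, Polynomial.coeff_monomial, Polynomial.coeff_monomial, if_neg,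
      if_neg, add_zero]
    · intro h
      have := Nat.pow_right_injective (le_refl 2) h
      omega
    · intro h
      have := Nat.pow_right_injective (le_refl 2) h
      exact hij (Fin.ext (by omega))
  · intro h; exact absurd (Finset.mem_univ _) h

omit [Fintype K] [CharP K 2] in
theorem U_pol_degree (T : ℕ) (b : Fin T → K) : (U_pol T b).natDegree ≤ 2 ^ (2 * T) := by
  unfold U_pol
  refine Polynomial.natDegree_sum_le_of_forall_le _ _ (fun j _ => ?_)
  refine Polynomial.natDegree_add_le_of_degree_le ?_ ?_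
  · refine (Polynomial.natDegree_monomial_le _).trans ?_
    exact Nat.pow_le_pow_right (by norm_num) (by have := j.2; omega)
  · refine (Polynomial.natDegree_monomial_le _).trans ?_
    exact Nat.pow_le_pow_right (by norm_num) (by omega)

theorem U_pol_eval (l T : ℕ) (hT : T < l) (hK : Fintype.card K = 2 ^ l) (b : Fin T → K) (e : K) :
    (U_pol T b).eval e = (U_L l T b e) ^ 2 ^ T := by
  unfold U_pol U_L
  rw [Polynomial.eval_finsetSum, sum_pow_char_pow]
  refine Finset.sum_congr rfl (fun j _ => ?_)
  have hj := j.2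
  have h1 : l - (j.1 + 1) + T = l + (T - (j.1 + 1)) := by omega
  have e1 : (b j) ^ 2 ^ T * e ^ 2 ^ (T + (j.1 + 1)) = (b j * e ^ 2 ^ (j.1 + 1)) ^ 2 ^ T := by
    rw [mul_pow, ← pow_mul, ← pow_add, add_comm T]
  have e2 : (b j) ^ 2 ^ (T - (j.1 + 1)) * e ^ 2 ^ (T - (j.1 + 1))
      = ((b j * e) ^ 2 ^ (l - (j.1 + 1))) ^ 2 ^ T := by
    rw [← mul_pow, ← pow_mul, ← pow_add, h1, pow_add, pow_mul, ← hK, FiniteField.pow_card]
  rw [Polynomial.eval_add, Polynomial.eval_monomial, Polynomial.eval_monomial, add_pow_char_pow,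
    e1, e2]

theorem U_roots (T : ℕ) (b : Fin T → K) (hb : b ≠ 0) (r : K) :
    (univ.filter (fun e : K => (U_pol T b).eval e = r)).card ≤ 2 ^ (2 * T) := by
  obtain ⟨j, hj⟩ : ∃ j, b j ≠ 0 := by
    by_contra h
    push Not at h
    exact hb (funext h)
  have hne : U_pol T b - Polynomial.C r ≠ 0 := by
    intro h0
    have h1 : (U_pol T b - Polynomial.C r).coeff (2 ^ (T + (j.1 + 1))) = 0 := by rw [h0]; simp
    rw [Polynomial.coeff_sub, U_pol_coeff, Polynomial.coeff_C, if_neg (by positivity), sub_zero] at h1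
    exact hj (pow_eq_zero_iff (by positivity) |>.1 h1)
  have hdeg : (U_pol T b - Polynomial.C r).natDegree ≤ 2 ^ (2 * T) := by
    rw [Polynomial.natDegree_sub_C]
    exact U_pol_degree T b
  have hsub : univ.filter (fun e : K => (U_pol T b).eval e = r)
      ⊆ (U_pol T b - Polynomial.C r).roots.toFinset := by
    intro e he
    rw [Finset.mem_filter] at he
    rw [Multiset.mem_toFinset, Polynomial.mem_roots hne, Polynomial.IsRoot, Polynomial.eval_sub,
      Polynomial.eval_C, he.2, sub_self]
  calc _ ≤ (U_pol T b - Polynomial.C r).roots.toFinset.card := Finset.card_le_card hsub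
    _ ≤ Multiset.card (U_pol T b - Polynomial.C r).roots := Multiset.toFinset_card_le _
    _ ≤ (U_pol T b - Polynomial.C r).natDegree := Polynomial.card_roots' _
    _ ≤ _ := hdeg

omit [Fintype K] in
theorem U_zero_or_one (u v w : K) (h1 : u = 0 ∨ u = 1) (h2 : v = 0 ∨ v = 1) (h : u + v = w) :
    w = 0 ∨ w = 1 := by
  have h2' : (1 : K) + 1 = 0 := CharTwo.add_self_eq_zero 1
  rcases h1 with rfl | rfl <;> rcases h2 with rfl | rfl <;> subst h <;> simp [h2']

/-- the counting statement, without the subgroups -/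
theorem U_core (l T : ℕ) (hT : T < l) (hK : Fintype.card K = 2 ^ l)
    (p : K → K) (a a' : Fin T → K) (haa : a ≠ a') (S : Set (QuadraticAlgebra K 1 1))
    (hS : ∀ x ∈ S, (x.re + p x.im + U_L l T a x.im = 0 ∨
        x.re + p x.im + U_L l T a x.im = 1) ∧
      (x.re + p x.im + U_L l T a' x.im = 0 ∨ x.re + p x.im + U_L l T a' x.im = 1)) :
    Nat.card S < 2 ^ (2 * T + 3) := by
  have hb : a + a' ≠ 0 := by
    intro h0
    refine haa (funext fun j => ?_)
    have := congrFun h0 j
    exact CharTwo.add_eq_zero.1 this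
  set E : Finset K := univ.filter (fun e : K => (U_pol T (a + a')).eval e = 0)
    ∪ univ.filter (fun e : K => (U_pol T (a + a')).eval e = 1) with hE
  have hEcard : E.card ≤ 2 * 2 ^ (2 * T) := by
    have h0 := U_roots T (a + a') hb 0
    have h1 := U_roots T (a + a') hb 1
    have := Finset.card_union_le (univ.filter (fun e : K => (U_pol T (a + a')).eval e = 0))
      (univ.filter (fun e : K => (U_pol T (a + a')).eval e = 1))
    rw [← hE] at this
    omega
  -- the injection
  let f : S → K × K := fun x => (x.1.im, x.1.re + p x.1.im + U_L l T a x.1.im)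
  have hf : Function.Injective f := by
    rintro ⟨x, hx⟩ ⟨y, hy⟩ hxy
    simp only [f, Prod.mk.injEq] at hxy
    obtain ⟨h1, h2⟩ := hxy
    rw [h1] at h2
    have h3 : x.re = y.re := by
      have := add_right_cancel h2
      exact add_right_cancel this
    exact Subtype.ext (QuadraticAlgebra.ext h3 h1)
  have hmem : ∀ x : S, f x ∈ E ×ˢ ({0, 1} : Finset K) := by
    rintro ⟨x, hx⟩
    obtain ⟨h1, h2⟩ := hS x hx
    rw [Finset.mem_product]
    constructor
    · have hL : U_L l T (a + a') x.im = 0 ∨ U_L l T (a + a') x.im = 1 := by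
        refine U_zero_or_one _ _ _ h1 h2 ?_
        rw [U_L_add_left]
        have h2' : (2 : K) = 0 := CharTwo.two_eq_zero
        linear_combination (x.re + p x.im) * h2'
      rw [hE, Finset.mem_union, Finset.mem_filter, Finset.mem_filter, U_pol_eval l T hT hK]
      rcases hL with h | h
      · left; exact ⟨Finset.mem_univ _, by
          show (U_L l T (a + a') x.im) ^ 2 ^ T = 0
          rw [h, zero_pow (by positivity)]⟩
      · right; exact ⟨Finset.mem_univ _, by
          show (U_L l T (a + a') x.im) ^ 2 ^ T = 1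
          rw [h, one_pow]⟩
    · rcases h1 with h | h
      · simp [f, h]
      · simp [f, h]
  have hcard : Nat.card S ≤ (E ×ˢ ({0, 1} : Finset K)).card := by
    have hinj : Function.Injective (fun x : S => (⟨f x, hmem x⟩ : {p // p ∈ E ×ˢ ({0, 1} : Finset K)})) := by
      intro x y hxy
      exact hf (congrArg Subtype.val hxy)
    have h7 := Nat.card_le_card_of_injective _ hinj
    have h8 : Nat.card {p // p ∈ E ×ˢ ({0, 1} : Finset K)} = (E ×ˢ ({0, 1} : Finset K)).card := by
      rw [Nat.card_eq_fintype_card, Fintype.card_coe]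
    rw [h8] at h7
    exact h7
  have h01 : ({0, 1} : Finset K).card ≤ 2 := Finset.card_le_two
  rw [Finset.card_product] at hcard
  have h4 : E.card * ({0, 1} : Finset K).card ≤ (2 * 2 ^ (2 * T)) * 2 := Nat.mul_le_mul hEcard h01
  have h5 : 2 ^ (2 * T + 3) = 8 * 2 ^ (2 * T) := by rw [pow_add]; norm_num; ring
  have h6 : 0 < 2 ^ (2 * T) := by positivity
  omega

end U

end MCut
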